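import Pool.Agent.TH133.MZ.Zagier

/-!
# MP_56e040_nt: Zagier's dimension conjecture, density and gaps

Let `𝒵_n` be the span of the multiple zeta values of weight `n` and `d_n` Zagier's sequence. Assume
given an algebra with the properties of the algebra of motivic multiple zeta values: a commutative
`ℚ`-algebra `H` without zero divisors with subspaces `H_n` of dimension `d_n`, `H_m H_n ⊆ H_(m+n)`,
and a homomorphism `per : H → ℝ` with `per(H_n) = 𝒵_n` (Goncharov, Deligne-Goncharov, Brown). Then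
the following are equivalent.

1. `dim 𝒵_n = d_n` for all `n`.
2. `dim 𝒵_n = d_n` for arbitrarily large `n`.
3. `limsup dim 𝒵_n / d_n = 1`: for all `ε > 0` there are arbitrarily large `n` with
   `dim 𝒵_n ≥ (1 - ε) d_n`.
4. For every `w` there is `n ≥ w` with `dim 𝒵_n > d_n - d_(n-w)`.
-/

open Module

namespace Pool.Agent.Results.MP_56e040_nt.GapTheorem

open Pool.Agent.TH133.MZ

/-- **Zagier's dimension conjecture holds if and only if `dim 𝒵_n / d_n` has upper limit `1`.** -/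
theorem result {H : Type*} [CommRing H] [Algebra ℚ H] {gr : ℕ → Submodule ℚ H} {per : H →ₐ[ℚ] ℝ}
    {d : ℕ → ℕ} (hd : IsZagierSeq d) (h : IsMotivicModel gr per d) :
    List.TFAE [
      ∀ n : ℕ, finrank ℚ (Zw n) = d n,
      ∀ N : ℕ, ∃ n : ℕ, N ≤ n ∧ finrank ℚ (Zw n) = d n,
      ∀ ε : ℝ, 0 < ε → ∀ N : ℕ, ∃ n : ℕ, N ≤ n ∧ (1 - ε) * d n ≤ finrank ℚ (Zw n),
      ∀ w : ℕ, ∃ n : ℕ, w ≤ n ∧ d n < finrank ℚ (Zw n) + d (n - w)] :=
  zagier_tfae hd h

end Pool.Agent.Results.MP_56e040_nt.GapTheorem
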