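import Mathlib
import Pool.Agent.TH981.RF.Growth

/-!
# The growth of the dimensions of the spaces of multiple zeta values

Let `𝒵_n` be the span of the multiple zeta values of weight `n` and let `F` be the set of the
quotients of two elements of equal weight. Then `F` is a field and it controls the growth of
`dim 𝒵_n`:

* if `F` contains `m` algebraically independent numbers (for instance if `m` of the numbers
  `y / π ^ w`, `y ∈ 𝒵_w`, are algebraically independent), then `dim 𝒵_n` grows at least like `n ^ m`;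
* if `F` is a number field, then `dim 𝒵_n = [F : ℚ]` and `𝒵_n = v F` for all large `n` and all
  nonzero `v ∈ 𝒵_n`;
* otherwise `dim 𝒵_n` tends to infinity.
-/

set_option autoImplicit false

namespace Pool.Agent.Results.MP_56e040_nt.RatioFieldGrowth

open Module

/-- The `ℚ`-space `𝒵_n` spanned by the multiple zeta values of weight `n`, as in the frozen
statement (the empty index has value `1` and weight `0`). -/
noncomputable def Z (n : ℕ) : Submodule ℚ ℝ :=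
  Submodule.span ℚ
    {x : ℝ | ∃ t : ℕ, ∃ k : Fin t → ℕ,
      (∀ i, 1 ≤ k i) ∧ (∀ h : 0 < t, 2 ≤ k ⟨0, h⟩) ∧ (∑ i, k i) = n ∧
      x = ∑' m : {m : Fin t → ℕ // StrictAnti m ∧ ∀ i, 1 ≤ m i},
            ∏ i, (((m.1 i : ℕ) : ℝ) ^ (k i))⁻¹}

/-- The set of all quotients `x / y` of two elements `x`, `y ≠ 0` of the same space `𝒵_k`. -/
def Ratios : Set ℝ := {r | ∃ k, ∃ x ∈ Z k, ∃ y ∈ Z k, y ≠ 0 ∧ r = x / y}

open Pool.Agent.TH981.RF Pool.Agent.TH137.MZ Pool.Agent.H447R2.MZ in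
theorem exists_ne (n : ℕ) (hn : 2 ≤ n) : ∃ v ∈ Zs n, v ≠ 0 :=
  ⟨_, zeta_mem n hn, (zeta_pos n hn).ne'⟩

open Pool.Agent.TH981.RF Pool.Agent.TH137.MZ Pool.Agent.H447R2.MZ in
theorem sq_mem (w : ℕ) (y : ℝ) (hy : y ∈ Zs w) : (y / Real.pi ^ w) ^ 2 ∈ quot Zs mulZs := by
  have h1 : y ^ 2 ∈ Zs (w * 2) := mulZs.pow w y hy 2
  have h2 : (Real.pi ^ 2) ^ w ∈ Zs (w * 2) := by
    have := mulZs.pow 2 _ pi_sq_mem w
    rwa [mul_comm] at this
  have h3 := mem_quot (h := mulZs) h1 h2 (pow_ne_zero _ pi_sq_ne)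
  have e : (y / Real.pi ^ w) ^ 2 = y ^ 2 / (Real.pi ^ 2) ^ w := by
    rw [div_pow, ← pow_mul, ← pow_mul, mul_comm]
  rwa [e]

theorem result : ∃ F : IntermediateField ℚ ℝ, (F : Set ℝ) = Ratios ∧
    (∀ (m : ℕ) (f : Fin m → ℝ), (∀ i, f i ∈ F) → AlgebraicIndependent ℚ f →
      ∃ k : ℕ, 1 ≤ k ∧ ∀ n : ℕ, 2 ≤ n → ((n - 2) / k + m).choose m ≤ finrank ℚ (Z n)) ∧
    (∀ (m : ℕ) (w : Fin m → ℕ) (y : Fin m → ℝ), (∀ i, y i ∈ Z (w i)) →
      AlgebraicIndependent ℚ (fun i => y i / Real.pi ^ w i) →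
      ∃ k : ℕ, 1 ≤ k ∧ ∀ n : ℕ, 2 ≤ n → ((n - 2) / k + m).choose m ≤ finrank ℚ (Z n)) ∧
    (FiniteDimensional ℚ F → ∃ n₀ : ℕ, ∀ n : ℕ, n₀ ≤ n → finrank ℚ (Z n) = finrank ℚ F ∧
      ∀ v ∈ Z n, v ≠ 0 → ∀ y : ℝ, y ∈ Z n ↔ y / v ∈ F) ∧
    (¬ FiniteDimensional ℚ F → ∀ B : ℕ, ∃ n₀ : ℕ, ∀ n : ℕ, n₀ ≤ n → B ≤ finrank ℚ (Z n)) := by
  refine ⟨Pool.Agent.TH981.RF.fld Pool.Agent.TH137.MZ.mulZs, rfl, ?_, ?_, ?_, ?_⟩
  · intro m f hf hi
    exact Pool.Agent.TH981.RF.growth Pool.Agent.TH137.MZ.mulZs Pool.Agent.TH137.MZ.finZs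
      exists_ne m f hf hi
  · intro m w y hy hi
    have h1 : AlgebraicIndependent ℚ (fun i => (y i / Real.pi ^ w i) ^ 2) := by
      have h2 := hi.polynomial_aeval_of_transcendental (f := fun _ => Polynomial.X ^ 2)
        (fun _ => (Polynomial.transcendental_X ℚ).pow (by norm_num))
      simpa using h2
    exact Pool.Agent.TH981.RF.growth Pool.Agent.TH137.MZ.mulZs Pool.Agent.TH137.MZ.finZs
      exists_ne m _ (fun i => sq_mem (w i) (y i) (hy i)) h1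
  · intro hF
    exact Pool.Agent.TH981.RF.stable Pool.Agent.TH137.MZ.mulZs Pool.Agent.TH137.MZ.finZs
      exists_ne
  · intro hF B
    exact Pool.Agent.TH981.RF.tends Pool.Agent.TH137.MZ.mulZs Pool.Agent.TH137.MZ.finZs
      exists_ne hF B

end Pool.Agent.Results.MP_56e040_nt.RatioFieldGrowth
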